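import Mathlib
import Pool.Agent.Q91.RP.App

/-!
The system of three values of the form, general modulus.
-/

set_option autoImplicit false
set_option maxHeartbeats 400000

namespace Pool.Agent.Q91.RQ

open Finset Pool.Agent.H505R2 Pool.Agent.Y887.QKS Pool.Agent.Q91.RP

/-- the local conditions -/
structure Dat (b c : ℤ) (Q : ℕ) (w : Fin 3 → ℕ × ℕ) (s : Fin 3 → ℕ) : Prop where
  hb : 0 ≤ b
  hc : 1 ≤ c
  Qpos : 0 < Q
  Q12 : ∀ p : ℕ, p.Prime → p ≤ 12 → p ∣ Q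
  dvd : ∀ i, ∀ p : ℕ, p.Prime → p ∣ Q → p * s i ∣ Q
  val : ∀ i, ∃ m : ℤ, qf b c (iv (w i)) = s i * m ∧ ∀ p : ℕ, p.Prime → p ∣ Q → ¬ (p : ℤ) ∣ m
  det : (w 0).1 * (w 1).2 = (w 0).2 * (w 1).1 + 1
  sum : w 2 = w 0 + w 1
  pos : ∀ i, 0 < (w i).2

variable {b c : ℤ} {Q : ℕ} {w : Fin 3 → ℕ × ℕ} {s : Fin 3 → ℕ}

lemma Dat.spos (D : Dat b c Q w s) (i : Fin 3) : 0 < s i := by
  have h1 := D.dvd i 2 Nat.prime_two (D.Q12 2 Nat.prime_two (by norm_num))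
  have h2 := D.Qpos
  rcases Nat.eq_zero_or_pos (s i) with h | h
  · rw [h, mul_zero, zero_dvd_iff] at h1
    omega
  · exact h

lemma Dat.vl_spec (D : Dat b c Q w s) {ℓ β ν : ℕ} (P : Pt Q ℓ β ν) (i : Fin 3) :
    qf b c (zv Q ℓ β ν (w i)) = (s i : ℤ) * (vl b c Q w s i ℓ β ν : ℤ) ∧
      0 < vl b c Q w s i ℓ β ν ∧ ∀ p : ℕ, p.Prime → p ∣ Q → ¬ p ∣ vl b c Q w s i ℓ β ν := by
  have hz := zv_pos (Q := Q) P.hd (D.pos i)
  have h1 : 0 < qf b c (zv Q ℓ β ν (w i)) := qf_pos_of D.hb D.hc hz.1 hz.2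
  obtain ⟨r, hr⟩ := qf_mod b c P.hd P.md (w i)
  obtain ⟨m, hm, hm'⟩ := D.val i
  have hsQ : s i ∣ Q := (Dvd.intro_left 2 rfl).trans
    (D.dvd i 2 Nat.prime_two (D.Q12 2 Nat.prime_two (by norm_num)))
  obtain ⟨q, hq⟩ := hsQ
  have hs := D.spos i
  have hs' : (0 : ℤ) < s i := by exact_mod_cast hs
  have hq' : (Q : ℤ) = s i * q := by exact_mod_cast hq
  have h3 : qf b c (zv Q ℓ β ν (w i)) = (s i : ℤ) * (m + q * r) := by
    rw [hq'] at hr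
    linear_combination hr + hm
  have h4 : 0 < m + q * r := by
    rw [h3] at h1
    exact (mul_pos_iff_of_pos_left hs').1 h1
  have h5 : (vl b c Q w s i ℓ β ν : ℤ) = m + q * r := by
    unfold vl
    rw [h3, Int.toNat_mul hs'.le h4.le, Int.toNat_natCast, Nat.mul_div_cancel_left _ hs]
    exact Int.toNat_of_nonneg h4.le
  refine ⟨by rw [h3, h5], by omega, ?_⟩
  intro p hp hpQ hd
  apply hm' p hp hpQ
  have h6 : (p : ℤ) ∣ m + q * r := by rw [← h5]; exact_mod_cast hd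
  have h7 : (p : ℤ) ∣ q * r := by
    have h8 := D.dvd i p hp hpQ
    rw [hq, mul_comm] at h8
    have h9 : p ∣ q := (Nat.mul_dvd_mul_iff_left hs).1 h8
    have : (p : ℤ) ∣ q := by exact_mod_cast h9
    exact this.mul_right _
  exact (dvd_add_left h7).1 h6

lemma Dat.w_le (D : Dat b c Q w s) (i : Fin 3) : (w i).1 + (w i).2 ≤ (w 2).1 + (w 2).2 := by
  have h := D.sum
  have h1 : (w 2).1 = (w 0).1 + (w 1).1 := by rw [h]; rfl
  have h2 : (w 2).2 = (w 0).2 + (w 1).2 := by rw [h]; rfl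
  fin_cases i <;> simp <;> omega

lemma Dat.zv_bd (D : Dat b c Q w s) {ℓ β ν : ℕ} (P : Pt Q ℓ β ν) (i : Fin 3) :
    0 ≤ (zv Q ℓ β ν (w i)).1 ∧ 0 < (zv Q ℓ β ν (w i)).2 ∧
    (zv Q ℓ β ν (w i)).1 ≤ ((((w 2).1 + (w 2).2) * Q ^ 2 * ℓ : ℕ) : ℤ) ∧
    (zv Q ℓ β ν (w i)).2 ≤ ((((w 2).1 + (w 2).2) * Q ^ 2 * ℓ : ℕ) : ℤ) := by
  have hz := zv_pos (Q := Q) P.hd (D.pos i)
  have hl := zv_le P.hd D.Qpos P.hb P.hn (w i)
  have h1 : (((w i).1 + (w i).2) * Q ^ 2 * ℓ : ℕ) ≤ ((w 2).1 + (w 2).2) * Q ^ 2 * ℓ := by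
    apply Nat.mul_le_mul_right
    apply Nat.mul_le_mul_right
    exact D.w_le i
  have h2 : ((((w i).1 + (w i).2) * Q ^ 2 * ℓ : ℕ) : ℤ) ≤
    ((((w 2).1 + (w 2).2) * Q ^ 2 * ℓ : ℕ) : ℤ) := by exact_mod_cast h1
  exact ⟨hz.1, hz.2, hl.1.trans h2, hl.2.trans h2⟩

lemma Dat.vl_le (D : Dat b c Q w s) {ℓ β ν : ℕ} (P : Pt Q ℓ β ν) (i : Fin 3) :
    vl b c Q w s i ℓ β ν ≤ cc b c Q w * ℓ ^ 2 := by
  obtain ⟨h1, h2, h3, h4⟩ := D.zv_bd P i
  have h5 := qf_le D.hb D.hc h1 h2.le h3 h4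
  have h6 : (qf b c (zv Q ℓ β ν (w i))).toNat ≤ cc b c Q w * ℓ ^ 2 := by
    rw [Int.toNat_le]
    refine h5.trans (le_of_eq ?_)
    unfold cc
    have h7 : (((1 + b + c).toNat : ℕ) : ℤ) = 1 + b + c := Int.toNat_of_nonneg (by
      have := D.hb
      have := D.hc
      linarith)
    push_cast
    rw [h7]
    ring
  exact (Nat.div_le_self _ _).trans h6

lemma Dat.ip_bd (D : Dat b c Q w s) {ℓ β ν : ℕ} (P : Pt Q ℓ β ν) (i j : Fin 3) :
    0 < ip b c (zv Q ℓ β ν (w i)) (zv Q ℓ β ν (w j)) ∧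
    (ip b c (zv Q ℓ β ν (w i)) (zv Q ℓ β ν (w j))).toNat ≤ cc b c Q w * ℓ ^ 2 := by
  obtain ⟨h1, h2, h3, h4⟩ := D.zv_bd P i
  obtain ⟨k1, k2, k3, k4⟩ := D.zv_bd P j
  have hb := D.hb
  have hc := D.hc
  constructor
  · unfold ip
    have e1 := mul_nonneg h1 k1
    have e2 := mul_nonneg hb (mul_nonneg h2.le k1)
    have e3 := mul_pos (mul_pos (by linarith : (0:ℤ) < c) h2) k2
    nlinarith
  · have h5 := ip_le D.hb D.hc h1 h2.le h3 h4 k1 k2.le k3 k4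
    rw [Int.toNat_le]
    refine h5.trans (le_of_eq ?_)
    unfold cc
    have h7 : (((1 + b + c).toNat : ℕ) : ℤ) = 1 + b + c := Int.toNat_of_nonneg (by linarith)
    push_cast
    rw [h7]
    ring

/-- the inner product modulo `Q` -/
lemma ip_mod (b c : ℤ) {ℓ β ν : ℕ} (P : Pt Q ℓ β ν) (u v : ℕ × ℕ) :
    (Q : ℤ) ∣ ip b c (zv Q ℓ β ν u) (zv Q ℓ β ν v) - ip b c (iv u) (iv v) := by
  obtain ⟨⟨x, hx⟩, y, hy⟩ := zv_mod P.hd P.md u
  obtain ⟨⟨x', hx'⟩, y', hy'⟩ := zv_mod P.hd P.md v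
  set z := zv Q ℓ β ν u with hz
  set z' := zv Q ℓ β ν v with hz'
  have e1 : z.1 = u.1 + Q * x := by linarith
  have e2 : z.2 = u.2 + Q * y := by linarith
  have e3 : z'.1 = v.1 + Q * x' := by linarith
  have e4 : z'.2 = v.2 + Q * y' := by linarith
  unfold ip iv
  rw [e1, e2, e3, e4]
  refine ⟨u.1 * x' + x * v.1 + Q * x * x' + b * (u.2 * x' + y * v.1 + Q * y * x') +
    c * (u.2 * y' + y * v.2 + Q * y * y'), ?_⟩
  ring

/-- the vectors are primitive -/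
lemma Dat.prim (D : Dat b c Q w s) (i : Fin 3) {p : ℕ} (hp : p.Prime) :
    ¬ (p ∣ (w i).1 ∧ p ∣ (w i).2) := by
  intro ⟨h1, h2⟩
  have hd := D.det
  have h := D.sum
  have e1 : (w 2).1 = (w 0).1 + (w 1).1 := by rw [h]; rfl
  have e2 : (w 2).2 = (w 0).2 + (w 1).2 := by rw [h]; rfl
  apply hp.one_lt.ne'
  rw [← Nat.dvd_one]
  fin_cases i
  · simp only [Fin.zero_eta] at h1 h2
    have h3 : p ∣ (w 0).2 * (w 1).1 + 1 := by rw [← hd]; exact h1.mul_right _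
    exact (Nat.dvd_add_right (h2.mul_right _)).1 h3
  · simp only [Fin.mk_one] at h1 h2
    have h3 : p ∣ (w 0).2 * (w 1).1 + 1 := by rw [← hd]; exact h2.mul_left _
    exact (Nat.dvd_add_right (h1.mul_left _)).1 h3
  · simp only [Fin.reduceFinMk] at h1 h2
    have h3 : (w 2).1 * (w 1).2 = (w 2).2 * (w 1).1 + 1 := by
      rw [e1, e2, add_mul, add_mul, hd]; ring
    have h4 : p ∣ (w 2).2 * (w 1).1 + 1 := by rw [← h3]; exact h1.mul_right _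
    exact (Nat.dvd_add_right (h2.mul_right _)).1 h4

lemma Dat.s_dvd (D : Dat b c Q w s) (i : Fin 3) : s i ∣ Q :=
  (Dvd.intro_left 2 rfl).trans (D.dvd i 2 Nat.prime_two (D.Q12 2 Nat.prime_two (by norm_num)))

open Classical in
/-- the system for the sieve -/
lemma Dat.sys (D : Dat b c Q w s) {ℓ : ℕ} [hF : Fact ℓ.Prime] (c0 : (ZMod ℓ)ˣ)
    (hQ : (c0 : ZMod ℓ) * (Q : ZMod ℓ) ^ 2 = -1) (hmod : (Q : ℤ) ∣ (ℓ : ℤ) - 1)
    (hsize : cc b c Q w ≤ ℓ) :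
    Sys ℓ c0 3 3 (Fin 3) (fun i x => vl b c Q w s i ℓ (bv x) (vv c0 x))
      (fun i p => if p < ℓ ∧ ¬ p ∣ Q then Om b c Q ℓ (w i) p else ∅) := by
  have hP : ∀ x : (ZMod ℓ)ˣ, Pt Q ℓ (bv x) (vv c0 x) := by
    intro x
    obtain ⟨-, h2, -, h4, h5⟩ := facts c0 x Q hQ
    exact ⟨hF.out, hmod, h2, h4, h5⟩
  refine ⟨by simp, by norm_num, ?_, ?_, ?_, ?_⟩
  · intro i p hp hlt x
    obtain ⟨h1, h2, h3⟩ := D.vl_spec (hP x) i
    by_cases hpQ : p ∣ Q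
    · rw [if_neg (by tauto)]
      constructor
      · intro h; exact absurd h (h3 p hp hpQ)
      · intro h; simp at h
    · rw [if_pos ⟨hlt, hpQ⟩]
      have h12 : 12 < p := by
        by_contra hcon
        exact hpQ (D.Q12 p hp (by omega))
      have hl : ¬ p ∣ ℓ := by
        intro h
        rw [Nat.prime_dvd_prime_iff_eq hp hF.out] at h
        omega
      rw [← dvd_iff (b := b) (c := c) (hP x).hd hp h12 hl (w i), h1]
      constructor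
      · intro h
        exact (Int.natCast_dvd_natCast.2 h).mul_left _
      · intro h
        rw [← Nat.cast_mul, Int.natCast_dvd_natCast] at h
        rcases (Nat.Prime.dvd_mul hp).1 h with h | h
        · exact absurd (h.trans (D.s_dvd i)) hpQ
        · exact h
  · intro i p hp
    split_ifs with hlt
    · apply Om_card hp
      · intro h
        rw [Nat.prime_dvd_prime_iff_eq hp hF.out] at h
        omega
      · exact hlt.2
      · exact D.prim i hp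
    · simp
  · intro i p hp h
    rw [if_neg]
    intro h'
    exact h'.2 (D.Q12 p hp (by omega))
  · intro i x
    refine ⟨(D.vl_spec (hP x) i).2.1, (D.vl_le (hP x) i).trans ?_⟩
    calc cc b c Q w * ℓ ^ 2 ≤ ℓ * ℓ ^ 2 := Nat.mul_le_mul_right _ hsize
      _ = ℓ ^ 3 := by ring

end Pool.Agent.Q91.RQ
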