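import Mathlib
import Pool.Agent.Q91.RQ.Sys
import Pool.Agent.Q91.RP.Loc

/-!
The choice of the small vectors, general leading coefficient.
-/

set_option autoImplicit false
set_option maxHeartbeats 400000

namespace Pool.Agent.Q91.RQ

open Finset Pool.Agent.H505R2 Pool.Agent.Q91.RP

lemma prime_dvd_2310 {p : ℕ} (hp : p.Prime) (h : p ∣ 2310) :
    p = 2 ∨ p = 3 ∨ p = 5 ∨ p = 7 ∨ p = 11 := by
  have h3 : p ∈ Nat.primeFactors 2310 := by
    rw [Nat.mem_primeFactors]; exact ⟨hp, h, by norm_num⟩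
  have h4 : Nat.primeFactors 2310 = {2, 3, 5, 7, 11} := by
    have : (2310 : ℕ) = 2 * 3 * 5 * 7 * 11 := by norm_num
    rw [this, Nat.primeFactors_mul (by norm_num) (by norm_num),
      Nat.primeFactors_mul (by norm_num) (by norm_num),
      Nat.primeFactors_mul (by norm_num) (by norm_num),
      Nat.primeFactors_mul (by norm_num) (by norm_num),
      Nat.Prime.primeFactors (by norm_num), Nat.Prime.primeFactors (by norm_num),
      Nat.Prime.primeFactors (by norm_num), Nat.Prime.primeFactors (by norm_num),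
      Nat.Prime.primeFactors (by norm_num)]
    decide
  rw [h4] at h3
  simpa using h3

lemma dat_of {a : ℕ} {b C : ℤ} (hb : 0 ≤ b) (hC : 1 ≤ C) {j t s : ℕ} (ha : 1 ≤ a) (hj : 1 ≤ j)
    (ht : 1 ≤ t) (hs : 0 < s) (hsp : ∀ p : ℕ, p.Prime → p ∣ s → p ∣ 2310 * a) {u0 u1 u2 : ℤ}
    (h0 : (j : ℤ) ^ 2 + b * j + C = a * u0) (h1 : gg b C j t = a * u1)
    (h2 : gg b C j (t + 1) = s * u2)
    (hu : ∀ p : ℕ, p.Prime → p ∣ 2310 * a → ¬ (p : ℤ) ∣ u0 ∧ ¬ (p : ℤ) ∣ u1 ∧ ¬ (p : ℤ) ∣ u2) :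
    Dat b C (2310 * a ^ 2 * s) ![(j, 1), (j * t - 1, t), (j * (t + 1) - 1, t + 1)] ![a, a, s] := by
  have hjt : 1 ≤ j * t := Nat.mul_pos hj ht
  have hjt' : 1 ≤ j * (t + 1) := Nat.mul_pos hj (by omega)
  have e1 : ((j * t - 1 : ℕ) : ℤ) = j * t - 1 := by rw [Nat.cast_sub hjt]; push_cast; ring
  have e2 : ((j * (t + 1) - 1 : ℕ) : ℤ) = j * (t + 1) - 1 := by rw [Nat.cast_sub hjt']; push_cast; ring
  have hpQ : ∀ p : ℕ, p.Prime → p ∣ 2310 * a ^ 2 * s → p ∣ 2310 * a := by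
    intro p hp h
    rcases (Nat.Prime.dvd_mul hp).1 h with h | h
    · rcases (Nat.Prime.dvd_mul hp).1 h with h | h
      · exact h.mul_right _
      · exact (hp.dvd_of_dvd_pow h).mul_left _
    · exact hsp p hp h
  refine ⟨hb, hC, by positivity, ?_, ?_, ?_, ?_, ?_, ?_⟩
  · intro p hp h12
    exact ((dvd_2310 hp h12).mul_right _).mul_right _
  · intro i p hp hd
    obtain ⟨k, hk⟩ := hpQ p hp hd
    fin_cases i
    · show p * a ∣ 2310 * a ^ 2 * s
      exact ⟨k * s, by rw [sq, ← mul_assoc, hk]; ring⟩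
    · show p * a ∣ 2310 * a ^ 2 * s
      exact ⟨k * s, by rw [sq, ← mul_assoc, hk]; ring⟩
    · show p * s ∣ 2310 * a ^ 2 * s
      exact ⟨k * a, by rw [sq, ← mul_assoc, hk]; ring⟩
  · intro i
    fin_cases i
    · refine ⟨u0, ?_, fun p hp hd => (hu p hp (hpQ p hp hd)).1⟩
      show qf b C (iv (j, 1)) = (a : ℤ) * u0
      rw [← h0]
      simp [qf, iv]
    · refine ⟨u1, ?_, fun p hp hd => (hu p hp (hpQ p hp hd)).2.1⟩
      show qf b C (iv (j * t - 1, t)) = (a : ℤ) * u1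
      rw [← h1]
      simp only [qf, iv, gg]
      rw [e1]
      ring
    · refine ⟨u2, ?_, fun p hp hd => (hu p hp (hpQ p hp hd)).2.2⟩
      show qf b C (iv (j * (t + 1) - 1, t + 1)) = (s : ℤ) * u2
      rw [← h2]
      simp only [qf, iv, gg]
      rw [e2]
      push_cast
      ring
  · simp only [Matrix.cons_val_zero, Matrix.cons_val_one, one_mul]
    omega
  · simp only [Matrix.cons_val_zero, Matrix.cons_val_one, Matrix.cons_val]
    refine Prod.ext ?_ ?_
    · show j * (t + 1) - 1 = j + (j * t - 1)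
      rw [mul_add, mul_one]
      omega
    · show t + 1 = 1 + t
      ring
  · intro i
    fin_cases i
    · show 0 < 1
      norm_num
    · show 0 < t
      omega
    · show 0 < t + 1
      omega

/-- the classes modulo `a ^ 2` -/
lemma exists_JT (a : ℕ) (b c : ℤ) (hab : IsCoprime (a : ℤ) b) : ∃ J T : ℤ, (a : ℤ) ∣ J + b ∧
    (∃ U : ℤ, J ^ 2 + b * J + a * c = a * U ∧ (a : ℤ) ∣ U - 1) ∧
    (∃ U : ℤ, gg b (a * c) J T = a * U ∧ (a : ℤ) ∣ U - 1) ∧
    (a : ℤ) ∣ gg b (a * c) J (T + 1) - b := by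
  obtain ⟨x, y, hxy⟩ := hab
  set j1 : ℤ := y * (c - 1) with hj1
  set t1 : ℤ := y ^ 2 * (b - b * x - j1 - c * y) with ht1
  set t : ℤ := -y + a * t1 with ht
  have ha0 : ((a : ℕ) : ZMod a) = 0 := ZMod.natCast_self a
  have hby : (b : ZMod a) * y = 1 := by
    have h := congrArg (Int.cast : ℤ → ZMod a) hxy
    push_cast at h
    rw [ha0] at h
    linear_combination h
  have htz : ((t : ℤ) : ZMod a) = -y := by
    rw [ht]; push_cast; rw [ha0]; ring
  have hj1z : ((j1 : ℤ) : ZMod a) = y * (c - 1) := by rw [hj1]; push_cast; ring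
  have ht1z : ((t1 : ℤ) : ZMod a) = y ^ 2 * (b - b * x - y * (c - 1) - c * y) := by
    rw [ht1]; push_cast; rw [hj1z]
  refine ⟨-b + a * j1, t, ⟨j1, by ring⟩, ⟨a * j1 ^ 2 - b * j1 + c, by ring, ?_⟩, ?_, ?_⟩
  · rw [← ZMod.intCast_zmod_eq_zero_iff_dvd]
    push_cast
    rw [ha0, hj1z]
    linear_combination (-((c : ZMod a) - 1)) * hby
  · set X1 : ℤ := -x - b * t1 + j1 * t with hX1
    have hX : (-b + a * j1) * t - 1 = a * X1 := by
      rw [hX1, ht]
      linear_combination hxy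
    refine ⟨a * X1 ^ 2 + t * (b * X1 + c * t), ?_, ?_⟩
    · have h1 : gg b (a * c) (-b + a * j1) t =
          ((-b + a * j1) * t - 1) ^ 2 + b * ((-b + a * j1) * t - 1) * t + a * c * t ^ 2 := by
        unfold gg; ring
      rw [h1, hX]
      ring
    · rw [← ZMod.intCast_zmod_eq_zero_iff_dvd]
      have hX1z : ((X1 : ℤ) : ZMod a) = -x - b * (y ^ 2 * (b - b * x - y * (c - 1) - c * y)) +
          y * (c - 1) * (-y) := by
        rw [hX1]; push_cast; rw [ht1z, hj1z, htz]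
      have h2 : (b : ZMod a) * X1 + c * t = -b := by
        rw [hX1z, htz]
        linear_combination (-((b : ZMod a) - b * x - y * (c - 1) - c * y) * (b * y + 1)
          - y * (c - 1)) * hby
      push_cast
      rw [ha0, h2, htz]
      linear_combination hby
  · rw [← ZMod.intCast_zmod_eq_zero_iff_dvd]
    unfold gg
    push_cast
    rw [ha0, htz]
    linear_combination (-1 : ZMod a) * hby

/-- the classes modulo `a ^ 2` for natural numbers -/
lemma lift_JT {a : ℕ} {b c J T : ℤ} {j t : ℤ} (hj : (a : ℤ) ^ 2 ∣ j - J) (ht : (a : ℤ) ^ 2 ∣ t - T)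
    (h1 : (a : ℤ) ∣ J + b)
    (h2 : ∃ U : ℤ, J ^ 2 + b * J + a * c = a * U ∧ (a : ℤ) ∣ U - 1)
    (h3 : ∃ U : ℤ, gg b (a * c) J T = a * U ∧ (a : ℤ) ∣ U - 1)
    (h4 : (a : ℤ) ∣ gg b (a * c) J (T + 1) - b) : (a : ℤ) ∣ j + b ∧
    (∃ U : ℤ, j ^ 2 + b * j + a * c = a * U ∧ (a : ℤ) ∣ U - 1) ∧
    (∃ U : ℤ, gg b (a * c) j t = a * U ∧ (a : ℤ) ∣ U - 1) ∧
    (a : ℤ) ∣ gg b (a * c) j (t + 1) - b := by
  obtain ⟨u, hu⟩ := hj
  obtain ⟨v, hv⟩ := ht
  have e1 : j = J + a ^ 2 * u := by linarith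
  have e2 : t = T + a ^ 2 * v := by linarith
  obtain ⟨U0, hU0, k0, hk0⟩ := h2
  obtain ⟨U1, hU1, k1, hk1⟩ := h3
  obtain ⟨k, hk⟩ := h1
  obtain ⟨k4, hk4⟩ := h4
  refine ⟨⟨k + a * u, by rw [e1]; linear_combination hk⟩,
    ⟨U0 + a * (u * (2 * J + b) + a ^ 2 * u ^ 2), ?_, ⟨k0 + (u * (2 * J + b) + a ^ 2 * u ^ 2), ?_⟩⟩,
    ?_, ?_⟩
  · rw [e1]; linear_combination hU0
  · linear_combination hk0
  · obtain ⟨r, hr⟩ : ∃ r : ℤ, gg b (a * c) j t = gg b (a * c) J T + a ^ 2 * r := by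
      refine ⟨u * (2 * J + b + a ^ 2 * u) * t ^ 2 - 2 * u * t +
        (J ^ 2 + b * J + a * c) * v * (2 * T + a ^ 2 * v) - (2 * J + b) * v, ?_⟩
      rw [e1, e2]; unfold gg; ring
    refine ⟨U1 + a * r, by rw [hr]; linear_combination hU1, k1 + r, by linear_combination hk1⟩
  · obtain ⟨r, hr⟩ : ∃ r : ℤ, gg b (a * c) j (t + 1) = gg b (a * c) J (T + 1) + a ^ 2 * r := by
      refine ⟨u * (2 * J + b + a ^ 2 * u) * (t + 1) ^ 2 - 2 * u * (t + 1) +
        (J ^ 2 + b * J + a * c) * v * (2 * (T + 1) + a ^ 2 * v) - (2 * J + b) * v, ?_⟩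
      rw [e1, e2]; unfold gg; ring
    exact ⟨k4 + a * r, by rw [hr]; linear_combination hk4⟩

lemma crt_a (a : ℕ) (ha : 1 ≤ a) (J : ℤ) (j' : ℕ) : ∃ j : ℕ, 1 ≤ j ∧ (a : ℤ) ^ 2 ∣ (j : ℤ) - J ∧
    ∀ p ∈ ({2, 3, 5, 7, 11} : Finset ℕ), ¬ p ∣ a → (p : ℤ) ∣ (j : ℤ) - j' := by
  classical
  set S := ({2, 3, 5, 7, 11} : Finset ℕ).filter (fun p => ¬ p ∣ a) with hS
  set q := ∏ p ∈ S, p with hq
  have hSp : ∀ p ∈ S, p.Prime ∧ ¬ p ∣ a := by
    intro p hp
    rw [hS, mem_filter] at hp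
    refine ⟨?_, hp.2⟩
    have h := hp.1
    simp only [mem_insert, mem_singleton] at h
    rcases h with rfl | rfl | rfl | rfl | rfl <;> norm_num
  have hco : (a ^ 2).Coprime q := by
    rw [hq]
    apply Nat.Coprime.prod_right
    intro p hp
    obtain ⟨h1, h2⟩ := hSp p hp
    exact ((Nat.Prime.coprime_iff_not_dvd h1).2 h2).symm.pow_left 2
  have ha2 : 0 < a ^ 2 := by positivity
  obtain ⟨k, hk1, hk2⟩ := Nat.chineseRemainder hco ((J % ((a : ℤ) ^ 2)).toNat) j'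
  have hq0 : 0 < q := by
    rw [hq]; exact Finset.prod_pos (fun p hp => (hSp p hp).1.pos)
  refine ⟨k + a ^ 2 * q, ?_, ?_, ?_⟩
  · have := Nat.mul_pos ha2 hq0
    omega
  · have h1 : ((a ^ 2 : ℕ) : ℤ) ∣ (k : ℤ) - ((J % ((a : ℤ) ^ 2)).toNat : ℤ) :=
      (Nat.modEq_iff_dvd.1 hk1.symm)
    have h2 : (0 : ℤ) ≤ J % ((a : ℤ) ^ 2) := Int.emod_nonneg _ (by positivity)
    rw [Int.toNat_of_nonneg h2] at h1
    have h3 : ((a : ℤ) ^ 2) ∣ J % ((a : ℤ) ^ 2) - J := by
      refine ⟨-(J / (a : ℤ) ^ 2), ?_⟩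
      have := Int.emod_add_mul_ediv J ((a : ℤ) ^ 2)
      linarith
    have h4 : ((a : ℤ) ^ 2) ∣ (k : ℤ) - J % ((a : ℤ) ^ 2) := by exact_mod_cast h1
    have h5 := dvd_add h4 h3
    push_cast
    have h6 : ((a : ℤ) ^ 2) ∣ (a : ℤ) ^ 2 * q := dvd_mul_right _ _
    have h7 := dvd_add h5 h6
    have e : (k : ℤ) + (a : ℤ) ^ 2 * q - J = (k : ℤ) - J % ((a : ℤ) ^ 2) + (J % ((a : ℤ) ^ 2) - J) +
        (a : ℤ) ^ 2 * q := by ring
    rw [e]
    exact h7
  · intro p hp hpa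
    have hpS : p ∈ S := by rw [hS, mem_filter]; exact ⟨hp, hpa⟩
    have hpq : p ∣ q := Finset.dvd_prod_of_mem _ hpS
    have h1 : (q : ℤ) ∣ (k : ℤ) - j' := Nat.modEq_iff_dvd.1 hk2.symm
    have hpq' : (p : ℤ) ∣ (q : ℤ) := by exact_mod_cast hpq
    push_cast
    have h2 := dvd_add (hpq'.trans h1) (hpq'.mul_left ((a : ℤ) ^ 2))
    have e : (k : ℤ) + (a : ℤ) ^ 2 * q - j' = (k : ℤ) - j' + (a : ℤ) ^ 2 * q := by ring
    rw [e]
    exact h2

lemma nr3' : ∀ b c : ZMod 3, ∃ j : ZMod 3, j ^ 2 + b * j + c ≠ 0 ∧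
    (b ^ 2 - 4 * c ≠ 1 → (j - 1) ^ 2 + b * (j - 1) + c ≠ 0) := by decide

lemma gg_sub (p b C j t j' t' : ℤ) (hj : p ∣ j - j') (ht : p ∣ t - t') :
    p ∣ gg b C j t - gg b C j' t' := by
  have e : gg b C j t - gg b C j' t' = (j - j') * ((j + j' + b) * t ^ 2 - 2 * t) +
      (t - t') * ((j' ^ 2 + b * j' + C) * (t + t') - (2 * j' + b)) := by
    unfold gg; ring
  rw [e]
  exact dvd_add (hj.mul_right _) (ht.mul_right _)

lemma hh_sub (p b C j j' : ℤ) (hj : p ∣ j - j') :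
    p ∣ (j ^ 2 + b * j + C) - (j' ^ 2 + b * j' + C) := by
  have e : (j ^ 2 + b * j + C) - (j' ^ 2 + b * j' + C) = (j - j') * (j + j' + b) := by ring
  rw [e]
  exact hj.mul_right _

/-- the general choice -/
theorem locG {a : ℕ} {b c : ℤ} (ha : 1 ≤ a) (hb : 0 ≤ b) (hc : 1 ≤ c) (hab : IsCoprime (a : ℤ) b)
    (hpar : ¬ (¬ 2 ∣ a ∧ Odd b ∧ Even c)) :
    ∃ i k : ℕ, ∃ w : Fin 3 → ℕ × ℕ,
      Dat b (a * c) (2310 * a ^ 2 * (2 ^ i * 3 ^ k)) w ![a, a, 2 ^ i * 3 ^ k] ∧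
      (a : ℤ) ∣ ip b (a * c) (iv (w 0)) (iv (w 1)) ∧
      ((2 ∣ a ∨ (Odd b ∧ Odd c)) → i = 0) ∧
      ((3 ∣ a ∨ ¬ (3 : ℤ) ∣ b ^ 2 - 4 * a * c - 1) → k = 0) := by
  set C : ℤ := a * c with hC
  have ha' : (1 : ℤ) ≤ a := by exact_mod_cast ha
  have hC1 : 1 ≤ C := by rw [hC]; nlinarith
  -- the class modulo two
  obtain ⟨j2, hj2⟩ : ∃ j2 : ℕ, ∀ j : ℤ, (2 : ℤ) ∣ j - j2 → ¬ 2 ∣ a →
      ¬ (2 : ℤ) ∣ j ^ 2 + b * j + C := by
    by_cases h2a : 2 ∣ a
    · exact ⟨0, fun _ _ h => absurd h2a h⟩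
    have hodda : Odd (a : ℤ) := by
      rw [Int.odd_coe_nat, ← Nat.not_even_iff_odd, even_iff_two_dvd]; exact h2a
    rcases Int.even_or_odd c with h | h
    · have hb2 : Even b := by
        rcases Int.even_or_odd b with h' | h'
        · exact h'
        · exact absurd ⟨h2a, h', h⟩ hpar
      refine ⟨1, fun j hj _ hd => ?_⟩
      have hj' : Odd j := by
        have h1 : Even (j - 1) := even_iff_two_dvd.2 (by exact_mod_cast hj)
        have := h1.add_odd odd_one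
        simpa using this
      have h3 : Odd (j ^ 2 + b * j + C) :=
        ((hj'.pow.add_even (hb2.mul_right _)).add_even (h.mul_left _))
      rw [← even_iff_two_dvd] at hd
      exact (Int.not_even_iff_odd.2 h3) hd
    · refine ⟨0, fun j hj _ hd => ?_⟩
      have hj' : Even j := by
        have h1 : Even (j - 0) := even_iff_two_dvd.2 (by exact_mod_cast hj)
        simpa using h1
      have h3 : Odd (j ^ 2 + b * j + C) :=
        ((hj'.pow_of_ne_zero (by norm_num)).add (hj'.mul_left b)).add_odd (hodda.mul h)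
      rw [← even_iff_two_dvd] at hd
      exact (Int.not_even_iff_odd.2 h3) hd
  obtain ⟨x3, hx3, hx3'⟩ := nr3' b C
  obtain ⟨J, T, hJT1, hJT2, hJT3, hJT4⟩ := exists_JT a b c hab
  obtain ⟨j', -, k2, k9, g5, g7, g11⟩ := choose_j b C j2 x3.val
  obtain ⟨t', -, t2, t9, ⟨a5, a7, a11⟩, b5, b7, b11⟩ := choose_t b C j' g5 g7 g11 0 0
  obtain ⟨j, hj, hjJ, hjp⟩ := crt_a a ha J j'
  obtain ⟨t, ht, htT, htp⟩ := crt_a a ha T t'
  obtain ⟨d1, ⟨u0, hu0, hu0'⟩, ⟨u1, hu1, hu1'⟩, d4⟩ := lift_JT hjJ htT hJT1 hJT2 hJT3 hJT4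
  -- small primes
  have k2' : (2 : ℤ) ∣ (j' : ℤ) - j2 := by
    have := Nat.modEq_iff_dvd.1 k2.symm; exact_mod_cast this
  have k3' : ((j' : ℕ) : ZMod 3) = x3 := by
    rw [(ZMod.natCast_eq_natCast_iff j' x3.val 3).2 (k9.of_dvd (by norm_num)),
      ZMod.natCast_zmod_val]
  have t2' : (2 : ℤ) ∣ (t' : ℤ) := by
    have := (Nat.modEq_zero_iff_dvd.1 t2); exact_mod_cast this
  have t3' : (3 : ℤ) ∣ (t' : ℤ) := by
    have h4 : 9 ∣ t' := Nat.modEq_zero_iff_dvd.1 t9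
    have h5 : 3 ∣ t' := (by norm_num : 3 ∣ 9).trans h4
    exact_mod_cast h5
  have key : ∀ p ∈ ({2, 3, 5, 7, 11} : Finset ℕ), ¬ p ∣ a →
      ¬ (p : ℤ) ∣ (j : ℤ) ^ 2 + b * j + C ∧ ¬ (p : ℤ) ∣ gg b C j t ∧
      (p ≠ 2 → p ≠ 3 → ¬ (p : ℤ) ∣ gg b C j (t + 1)) := by
    intro p hp hpa
    have e1 := hjp p hp hpa
    have e2 := htp p hp hpa
    have s1 := hh_sub p b C j j' e1
    have s2 := gg_sub p b C j t j' t' e1 e2
    have s3 := gg_sub p b C j (t + 1) j' (t' + 1) e1 (by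
      have : (t : ℤ) + 1 - (t' + 1) = t - t' := by ring
      rw [this]; exact e2)
    simp only [mem_insert, mem_singleton] at hp
    rcases hp with rfl | rfl | rfl | rfl | rfl
    · refine ⟨?_, ?_, fun h => absurd rfl h⟩
      · have h1 := hj2 j (by
          have h2 := dvd_add e1 k2'
          have e : (j : ℤ) - j' + (j' - j2) = j - j2 := by ring
          rw [e] at h2
          exact_mod_cast h2) hpa
        exact_mod_cast h1
      · intro h
        have h2 := (dvd_sub_right h).1 s2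
        obtain ⟨v, hv⟩ := t2'
        unfold gg at h2
        rw [hv] at h2
        have h5 : (2 : ℤ) ∣ (j' ^ 2 + b * j' + C) * (2 * v) ^ 2 - (2 * j' + b) * (2 * v) :=
          ⟨(j' ^ 2 + b * j' + C) * (2 * v ^ 2) - (2 * j' + b) * v, by ring⟩
        have := (dvd_add_right h5).1 (by exact_mod_cast h2)
        norm_num at this
    · refine ⟨?_, ?_, fun _ h => absurd rfl h⟩
      · intro h
        have h2 := (dvd_sub_right h).1 s1
        apply hx3
        have h' := (ZMod.intCast_zmod_eq_zero_iff_dvd ((j' : ℤ) ^ 2 + b * j' + C) 3).2 h2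
        push_cast at h'
        rw [k3'] at h'
        exact h'
      · intro h
        have h2 := (dvd_sub_right h).1 s2
        obtain ⟨v, hv⟩ := t3'
        unfold gg at h2
        rw [hv] at h2
        have h5 : (3 : ℤ) ∣ (j' ^ 2 + b * j' + C) * (3 * v) ^ 2 - (2 * j' + b) * (3 * v) :=
          ⟨(j' ^ 2 + b * j' + C) * (3 * v ^ 2) - (2 * j' + b) * v, by ring⟩
        have := (dvd_add_right h5).1 (by exact_mod_cast h2)
        norm_num at this
    · exact ⟨fun h => g5 (by exact_mod_cast (dvd_sub_right h).1 s1),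
        fun h => a5 (by exact_mod_cast (dvd_sub_right h).1 s2),
        fun _ _ h => b5 (by exact_mod_cast (dvd_sub_right h).1 s3)⟩
    · exact ⟨fun h => g7 (by exact_mod_cast (dvd_sub_right h).1 s1),
        fun h => a7 (by exact_mod_cast (dvd_sub_right h).1 s2),
        fun _ _ h => b7 (by exact_mod_cast (dvd_sub_right h).1 s3)⟩
    · exact ⟨fun h => g11 (by exact_mod_cast (dvd_sub_right h).1 s1),
        fun h => a11 (by exact_mod_cast (dvd_sub_right h).1 s2),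
        fun _ _ h => b11 (by exact_mod_cast (dvd_sub_right h).1 s3)⟩
  -- the third value
  have hgp : 0 < gg b C j (t + 1) := gg_pos hb hC1 (by exact_mod_cast hj) (by omega)
  obtain ⟨n, hn⟩ := Int.eq_ofNat_of_zero_le hgp.le
  have hn0 : n ≠ 0 := by rintro rfl; rw [hn] at hgp; simp at hgp
  obtain ⟨i, n1, hi1, hi2⟩ := Nat.exists_eq_pow_mul_and_not_dvd hn0 2 (by norm_num)
  have hn1 : n1 ≠ 0 := by rintro rfl; simp at hi1
  obtain ⟨k, m, hk1, hk2⟩ := Nat.exists_eq_pow_mul_and_not_dvd hn1 3 (by norm_num)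
  have hval : gg b C j (t + 1) = ((2 ^ i * 3 ^ k : ℕ) : ℤ) * (m : ℤ) := by
    rw [hn, hi2, hk2]; push_cast; ring
  have hpa3 : ∀ p : ℕ, p.Prime → p ∣ a → ¬ (p : ℤ) ∣ gg b C j (t + 1) := by
    intro p hp hpa hd
    have h1 : (p : ℤ) ∣ gg b C j (t + 1) - b := by
      have : (p : ℤ) ∣ (a : ℤ) := by exact_mod_cast hpa
      exact this.trans d4
    have h2 : (p : ℤ) ∣ b := (dvd_sub_right hd).1 h1
    obtain ⟨x, y, hxy⟩ := hab
    have h3 : (p : ℤ) ∣ 1 := by
      rw [← hxy]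
      have : (p : ℤ) ∣ (a : ℤ) := by exact_mod_cast hpa
      exact dvd_add (this.mul_left _) (h2.mul_left _)
    have h4 : p ∣ 1 := by exact_mod_cast h3
    exact hp.one_lt.ne' (Nat.dvd_one.1 h4)
  refine ⟨i, k, _, dat_of hb hC1 ha hj ht (by positivity) ?_ hu0 hu1 hval ?_, ?_, ?_, ?_⟩
  · intro p hp hd
    rcases (Nat.Prime.dvd_mul hp).1 hd with h | h
    · have := (Nat.prime_dvd_prime_iff_eq hp Nat.prime_two).1 (hp.dvd_of_dvd_pow h)
      subst this
      exact (by norm_num : 2 ∣ 2310).mul_right _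
    · have := (Nat.prime_dvd_prime_iff_eq hp Nat.prime_three).1 (hp.dvd_of_dvd_pow h)
      subst this
      exact (by norm_num : 3 ∣ 2310).mul_right _
  · intro p hp hd
    by_cases hpa : p ∣ a
    · have hpa' : (p : ℤ) ∣ (a : ℤ) := by exact_mod_cast hpa
      have hone : ¬ (p : ℤ) ∣ 1 := by
        intro h
        have h4 : p ∣ 1 := by exact_mod_cast h
        exact hp.one_lt.ne' (Nat.dvd_one.1 h4)
      refine ⟨fun h => hone ?_, fun h => hone ?_, fun h => hpa3 p hp hpa ?_⟩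
      · exact (dvd_sub_right h).1 (hpa'.trans hu0')
      · exact (dvd_sub_right h).1 (hpa'.trans hu1')
      · rw [hval]; exact h.mul_left _
    · have hp5 : p ∈ ({2, 3, 5, 7, 11} : Finset ℕ) := by
        rcases (Nat.Prime.dvd_mul hp).1 hd with h | h
        · have := prime_dvd_2310 hp h
          simpa using this
        · exact absurd h hpa
      obtain ⟨q1, q2, q3⟩ := key p hp5 hpa
      refine ⟨fun h => q1 ?_, fun h => q2 ?_, fun h => ?_⟩
      · rw [hu0]; exact h.mul_left _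
      · rw [hu1]; exact h.mul_left _
      · by_cases h2 : p = 2
        · subst h2
          apply hi1
          rw [hk2]
          have : 2 ∣ m := by exact_mod_cast h
          exact this.mul_left _
        · by_cases h3 : p = 3
          · subst h3
            exact hk1 (by exact_mod_cast h)
          · exact q3 h2 h3 (by rw [hval]; exact h.mul_left _)
  · -- the inner product
    show (a : ℤ) ∣ ip b C (iv (j, 1)) (iv (j * t - 1, t))
    have hjt : 1 ≤ j * t := Nat.mul_pos hj ht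
    have e1 : ((j * t - 1 : ℕ) : ℤ) = j * t - 1 := by rw [Nat.cast_sub hjt]; push_cast; ring
    have e : ip b C (iv (j, 1)) (iv (j * t - 1, t)) = t * ((j : ℤ) ^ 2 + b * j + C) - (j + b) := by
      simp only [ip, iv]
      rw [e1]; push_cast; ring
    rw [e, hu0]
    exact dvd_sub ((dvd_mul_right _ _).mul_left _) d1
  · intro h
    have hodd : ¬ (2 : ℤ) ∣ gg b C j (t + 1) := by
      by_cases h2a : 2 ∣ a
      · exact_mod_cast hpa3 2 Nat.prime_two h2a
      · obtain ⟨hbo, hco⟩ := h.resolve_left h2a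
        have e2 := htp 2 (by simp) h2a
        have q1 := (key 2 (by simp) h2a).1
        have ht2 : (2 : ℤ) ∣ t := by
          have := dvd_add (by exact_mod_cast e2 : (2 : ℤ) ∣ (t : ℤ) - t') t2'
          simpa using this
        obtain ⟨v, hv⟩ := ht2
        obtain ⟨b1, hb1⟩ := hbo
        intro hd
        apply q1
        have h9 : gg b C j (t + 1) = (j ^ 2 + b * j + C) + 2 * ((j ^ 2 + b * j + C) *
            (2 * v ^ 2 + 2 * v) - j * (2 * v + 1) - b1 * (2 * v + 1) - v) := by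
          unfold gg; rw [hv, hb1]; ring
        rw [h9] at hd
        have h10 := (dvd_add_left (dvd_mul_right 2 _)).1 hd
        exact_mod_cast h10
    by_contra hi0
    apply hodd
    rw [hval]
    obtain ⟨i', rfl⟩ := Nat.exists_eq_succ_of_ne_zero hi0
    push_cast
    rw [pow_succ]
    exact ⟨2 ^ i' * 3 ^ k * m, by ring⟩
  · intro h
    have hodd : ¬ (3 : ℤ) ∣ gg b C j (t + 1) := by
      by_cases h3a : 3 ∣ a
      · exact_mod_cast hpa3 3 Nat.prime_three h3a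
      · have hD := h.resolve_left h3a
        have e2 := htp 3 (by simp) h3a
        have e1 := hjp 3 (by simp) h3a
        have ht3 : (3 : ℤ) ∣ t := by
          have := dvd_add (by exact_mod_cast e2 : (3 : ℤ) ∣ (t : ℤ) - t') t3'
          simpa using this
        have hjz : ((j : ℕ) : ZMod 3) = x3 := by
          have h5 : (((j : ℤ) - j' : ℤ) : ZMod 3) = 0 :=
            (ZMod.intCast_zmod_eq_zero_iff_dvd _ 3).2 (by exact_mod_cast e1)
          push_cast at h5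
          rw [k3'] at h5
          exact sub_eq_zero.1 h5
        have htz : ((t : ℕ) : ZMod 3) = 0 := by
          have h5 := (ZMod.intCast_zmod_eq_zero_iff_dvd (t : ℤ) 3).2 (by exact_mod_cast ht3)
          exact_mod_cast h5
        have hne : (b : ZMod 3) ^ 2 - 4 * (C : ZMod 3) ≠ 1 := by
          intro h6
          apply hD
          have h7 : ((b ^ 2 - 4 * a * c - 1 : ℤ) : ZMod 3) = 0 := by
            rw [hC] at h6
            push_cast at h6 ⊢
            linear_combination h6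
          exact_mod_cast (ZMod.intCast_zmod_eq_zero_iff_dvd _ 3).1 h7
        intro hd
        apply hx3' hne
        have h8 := (ZMod.intCast_zmod_eq_zero_iff_dvd (gg b C j (t + 1)) 3).2 (by exact_mod_cast hd)
        unfold gg at h8
        push_cast at h8
        rw [hjz, htz] at h8
        linear_combination h8
    by_contra hi0
    apply hodd
    rw [hval]
    obtain ⟨i', rfl⟩ := Nat.exists_eq_succ_of_ne_zero hi0
    push_cast
    rw [pow_succ]
    exact ⟨2 ^ i * 3 ^ i' * m, by ring⟩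

end Pool.Agent.Q91.RQ
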