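import Mathlib
import Pool.Agent.Q91.RQ.Sys
import Pool.Agent.Q91.RP.Fin
import Pool.Agent.Y887.QK.Svd
import Pool.Agent.TH423.SH.PAIP

/-!
Rough values of a quadratic polynomial with signs prescribed by a multiplicative function.
-/

set_option autoImplicit false
set_option maxHeartbeats 400000

namespace Pool.Agent.Q91.RQ

open Finset Pool.Agent.H505R2 Pool.Agent.Y887.QKS Pool.Agent.Q91.RP

open Classical in
/-- the good arguments -/
noncomputable def TN (a : ℕ) (b c : ℤ) (r K X : ℕ) (g : ℕ → ℤ) (e : ℤ) : Finset ℕ :=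
  (Icc 1 X).filter (fun N => a ∣ N ∧ ∃ M : ℕ, fm b c 1 (N : ℤ) = (r : ℤ) * M ∧ g M = e ∧
    M.primeFactorsList.length ≤ K ∧ ∀ p : ℕ, p.Prime → p ∣ M → X < p ^ K)

variable {b c : ℤ} {Q : ℕ} {w : Fin 3 → ℕ × ℕ} {s : Fin 3 → ℕ}

open Classical in
/-- one prime -/
lemma fiber_ge {K L0 : ℕ}
    (hK : ∀ (ℓ : ℕ) [Fact ℓ.Prime], L0 ≤ ℓ → ∀ (c : (ZMod ℓ)ˣ) (ι : Type) [Fintype ι]
      (V : ι → (ZMod ℓ)ˣ → ℕ) (Ω : ι → (p : ℕ) → Finset (ZMod p × ZMod p)),
      Sys ℓ c 3 3 ι V Ω → ∃ S : Finset (ZMod ℓ)ˣ, (∀ x ∈ S,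
        ∀ i, ∀ p : ℕ, p.Prime → p ∣ V i x → ℓ < p ^ K) ∧ (ℓ : ℝ) / Real.log ℓ ^ K ≤ (S.card : ℝ))
    (D : Dat b c Q w s) {ℓ L : ℕ} (hl : ℓ.Prime) (h0 : L0 ≤ ℓ) (h1 : cc b c Q w ≤ ℓ) (h2 : Q < ℓ)
    (hmod : (Q : ℤ) ∣ (ℓ : ℤ) - 1) (hL : ℓ ∈ Ioc L (2 * L)) :
    (ℓ : ℝ) / Real.log ℓ ^ K ≤ (((GG b c Q w s K L).filter (fun t => t.1 = ℓ)).card : ℝ) := by
  have hF : Fact ℓ.Prime := ⟨hl⟩
  have hQ0 : ((Q : ℕ) : ZMod ℓ) ≠ 0 := by
    rw [Ne, ZMod.natCast_eq_zero_iff]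
    exact fun h => absurd (Nat.le_of_dvd D.Qpos h) (by omega)
  set c0 : (ZMod ℓ)ˣ := Units.mk0 (-((Q : ZMod ℓ) ^ 2)⁻¹) (neg_ne_zero.2 (inv_ne_zero (pow_ne_zero _ hQ0)))
    with hc0
  have hc : (c0 : ZMod ℓ) * (Q : ZMod ℓ) ^ 2 = -1 := by
    rw [hc0, Units.val_mk0, neg_mul, inv_mul_cancel₀ (pow_ne_zero _ hQ0)]
  have hP : ∀ x : (ZMod ℓ)ˣ, Pt Q ℓ (bv x) (vv c0 x) := by
    intro x
    obtain ⟨-, h2, -, h4, h5⟩ := facts c0 x Q hc
    exact ⟨hl, hmod, h2, h4, h5⟩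
  obtain ⟨S, hS, hcard⟩ := hK ℓ h0 c0 (Fin 3) _ _ (D.sys c0 hc hmod h1)
  refine hcard.trans ?_
  norm_cast
  apply card_le_card_of_injOn (fun x => (ℓ, bv x, vv c0 x))
  · intro x hx
    rw [mem_coe] at hx
    rw [mem_coe, mem_filter]
    refine ⟨?_, rfl⟩
    unfold GG
    rw [mem_filter, mem_product, mem_product, mem_range, mem_range]
    have hx2 := hP x
    have hb := hx2.hb
    have hn := hx2.hn
    rw [mem_Ioc] at hL
    refine ⟨⟨mem_Ioc.2 hL, ?_, ?_⟩, hx2, hS x hx⟩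
    · show bv x < 2 * L + 1
      omega
    · show vv c0 x < 2 * L + 1
      omega
  · intro x _ y _ hxy
    simp only [Prod.mk.injEq] at hxy
    have h3 := hxy.2.1
    unfold bv at h3
    exact Units.ext (ZMod.val_injective ℓ h3)

/-- the number of good triples -/
lemma GG_ge : ∃ K : ℕ, ∀ (b c : ℤ) (Q : ℕ) (w : Fin 3 → ℕ × ℕ) (s : Fin 3 → ℕ), Dat b c Q w s →
    ∃ L1 : ℕ, ∀ L : ℕ, L1 ≤ L →
      (L : ℝ) ^ 2 / Real.log L ^ (K + 2) ≤ ((GG b c Q w s K L).card : ℝ) := by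
  classical
  obtain ⟨C1, -, hs⟩ := Pool.Agent.Y887.QKF.sieve_all 3
  obtain ⟨K, L0, hK⟩ := hs 3 (by norm_num)
  have hK' : ∀ (ℓ : ℕ) [Fact ℓ.Prime], L0 ≤ ℓ → ∀ (c : (ZMod ℓ)ˣ) (ι : Type) [Fintype ι]
      (V : ι → (ZMod ℓ)ˣ → ℕ) (Ω : ι → (p : ℕ) → Finset (ZMod p × ZMod p)),
      Sys ℓ c 3 3 ι V Ω → ∃ S : Finset (ZMod ℓ)ˣ, (∀ x ∈ S,
        ∀ i, ∀ p : ℕ, p.Prime → p ∣ V i x → ℓ < p ^ K) ∧
        (ℓ : ℝ) / Real.log ℓ ^ K ≤ (S.card : ℝ) := by
    intro ℓ _ h0 c ι _ V Ω hS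
    refine ⟨_, ?_, hK ℓ h0 c ι V Ω hS⟩
    intro x hx
    rw [mem_filter] at hx
    exact hx.2.2
  refine ⟨K, ?_⟩
  intro b c Q w s D
  have hQ := D.Qpos
  obtain ⟨x0, hx0⟩ := Pool.Agent.TH423.SH.pai Q hQ (1 / 2) (1 / 2) (by norm_num) (by norm_num)
  have hφ : (0 : ℝ) < Nat.totient Q := by exact_mod_cast Nat.totient_pos.2 hQ
  refine ⟨max (max L0 (max (cc b c Q w) Q)) (max ⌈x0⌉₊
    (max 3 ⌈Real.exp (2 * Nat.totient Q * 2 ^ K)⌉₊)), ?_⟩
  intro L hL
  have g1 : L0 ≤ L := ((le_max_left _ _).trans (le_max_left _ _)).trans hL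
  have g2 : cc b c Q w ≤ L :=
    (((le_max_left _ _).trans (le_max_right _ _)).trans (le_max_left _ _)).trans hL
  have g3 : Q ≤ L :=
    (((le_max_right _ _).trans (le_max_right _ _)).trans (le_max_left _ _)).trans hL
  have g4 : ⌈x0⌉₊ ≤ L := ((le_max_left _ _).trans (le_max_right _ _)).trans hL
  have g5 : 3 ≤ L :=
    (((le_max_left _ _).trans (le_max_right _ _)).trans (le_max_right _ _)).trans hL
  have g6 : ⌈Real.exp (2 * Nat.totient Q * 2 ^ K)⌉₊ ≤ L :=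
    (((le_max_right _ _).trans (le_max_right _ _)).trans (le_max_right _ _)).trans hL
  have g4' : x0 ≤ L := (Nat.le_ceil _).trans (by exact_mod_cast g4)
  have g5' : (3 : ℝ) ≤ L := by exact_mod_cast g5
  have g6' : Real.exp (2 * Nat.totient Q * 2 ^ K) ≤ L := (Nat.le_ceil _).trans (by exact_mod_cast g6)
  have hlog : 2 * (Nat.totient Q : ℝ) * 2 ^ K ≤ Real.log L := by
    rw [← Real.log_exp (2 * Nat.totient Q * 2 ^ K)]
    exact Real.log_le_log (Real.exp_pos _) g6'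
  have hlog1 : 0 < Real.log L := Real.log_pos (by linarith)
  have hlog2 : Real.log ((2 * L : ℕ) : ℝ) ≤ 2 * Real.log L := by
    push_cast
    rw [Real.log_mul (by norm_num) (by positivity)]
    have : Real.log 2 ≤ Real.log L := Real.log_le_log (by norm_num) (by linarith)
    linarith
  -- the primes
  set PR := (Ioc L (2 * L)).filter (fun q => q.Prime ∧ q % Q = 1 % Q) with hPR
  have hcnt : (L : ℝ) / (2 * Nat.totient Q * Real.log L) ≤ PR.card := by
    have h1 := hx0 L g4' L (2 * L) 1 (by linarith) (by push_cast; linarith) (by push_cast; linarith)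
      (Nat.coprime_one_left Q)
    rw [abs_le] at h1
    have h2 := h1.1
    have e : (((2 * L : ℕ) : ℝ) - (L : ℝ)) / ((Nat.totient Q : ℝ) * Real.log L) =
        2 * ((L : ℝ) / (2 * Nat.totient Q * Real.log L)) := by
      push_cast; field_simp; ring
    rw [e] at h2
    rw [hPR]
    linarith
  -- fibres
  have hmaps : ∀ t ∈ GG b c Q w s K L, t.1 ∈ Ioc L (2 * L) := by
    intro t ht
    unfold GG at ht
    rw [mem_filter, mem_product] at ht
    exact ht.1.1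
  have hsum : ((GG b c Q w s K L).card : ℝ) =
      ∑ ℓ ∈ Ioc L (2 * L), (((GG b c Q w s K L).filter (fun t => t.1 = ℓ)).card : ℝ) := by
    rw [← Nat.cast_sum, ← card_eq_sum_card_fiberwise hmaps]
  have hfib : ∀ ℓ ∈ PR, (L : ℝ) / (2 * Real.log L) ^ K ≤
      (((GG b c Q w s K L).filter (fun t => t.1 = ℓ)).card : ℝ) := by
    intro ℓ hℓ
    rw [hPR, mem_filter] at hℓ
    obtain ⟨h1, h2, h3⟩ := hℓ
    have h1' := mem_Ioc.1 h1
    have hmod : (Q : ℤ) ∣ (ℓ : ℤ) - 1 := by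
      have h4 : 1 ≡ ℓ [MOD Q] := by
        unfold Nat.ModEq; exact h3.symm
      have h5 := (Nat.modEq_iff_dvd.1 h4)
      simpa using h5
    refine le_trans ?_ (fiber_ge hK' D h2 (g1.trans h1'.1.le) (g2.trans h1'.1.le)
      (lt_of_le_of_lt g3 h1'.1) hmod h1)
    have a1 : (L : ℝ) ≤ ℓ := by exact_mod_cast h1'.1.le
    have a2 : (ℓ : ℝ) ≤ ((2 * L : ℕ) : ℝ) := by exact_mod_cast h1'.2
    have a3 : 0 < Real.log ℓ := Real.log_pos (by linarith)
    have a4 : Real.log ℓ ≤ 2 * Real.log L := (Real.log_le_log (by linarith) a2).trans hlog2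
    gcongr
  have hfin : (PR.card : ℝ) * ((L : ℝ) / (2 * Real.log L) ^ K) ≤ ((GG b c Q w s K L).card : ℝ) := by
    rw [hsum, ← nsmul_eq_mul, ← sum_const]
    refine (sum_le_sum hfib).trans ?_
    apply sum_le_sum_of_subset_of_nonneg
    · rw [hPR]; exact filter_subset _ _
    · intro i _ _; positivity
  refine le_trans ?_ hfin
  have h6 : (L : ℝ) / (2 * Nat.totient Q * Real.log L) * ((L : ℝ) / (2 * Real.log L) ^ K) ≤
      (PR.card : ℝ) * ((L : ℝ) / (2 * Real.log L) ^ K) := by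
    gcongr
  refine le_trans ?_ h6
  rw [div_mul_div_comm, ← sq]
  apply div_le_div_of_nonneg_left (by positivity) (by positivity)
  calc 2 * (Nat.totient Q : ℝ) * Real.log L * (2 * Real.log L) ^ K
      = (2 * (Nat.totient Q : ℝ) * 2 ^ K) * Real.log L ^ (K + 1) := by ring
    _ ≤ Real.log L * Real.log L ^ (K + 1) := by gcongr
    _ = Real.log L ^ (K + 2) := by ring

/-! ### from good triples to arguments -/

/-- the arguments attached to a family of good triples -/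
lemma family {K L X a : ℕ} (D : Dat b c Q w s) (i j : Fin 3) (haQ : a ∣ Q)
    (hai : (a : ℤ) ∣ ip b c (iv (w i)) (iv (w j)))
    (hd : ((w i).1 : ℤ) * (w j).2 - (w i).2 * (w j).1 = 1) (hX : cc b c Q w * (2 * L) ^ 2 ≤ X)
    (hL : cc b c Q w ≤ L) (_ : 2 ≤ L) (hX2 : X ≤ L ^ 3)
    (g : ℕ → ℤ) (e : ℤ) (G : Finset (ℕ × ℕ × ℕ)) (hG : G ⊆ GG b c Q w s K L)
    (hg : ∀ t ∈ G, g (vl b c Q w s i t.1 t.2.1 t.2.2 * vl b c Q w s j t.1 t.2.1 t.2.2) = e) :
    G.card ≤ 3 * (b + c + 2).toNat * 2 ^ ((s i * s j).primeFactorsList.length + 6 * K) *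
      (TN a b c (s i * s j) (6 * K) X g e).card := by
  classical
  have hb := D.hb
  have hc := D.hc
  have hprop : ∀ t ∈ G, GP b c Q w s K t ∧ L < t.1 ∧ t.1 ≤ 2 * L := by
    intro t ht
    have h1 := hG ht
    unfold GG at h1
    rw [mem_filter, mem_product, mem_Ioc] at h1
    exact ⟨h1.2, h1.1.1.1, h1.1.1.2⟩
  apply count_pos hb hc G
    (fun t => (zv Q t.1 t.2.1 t.2.2 (w i), zv Q t.1 t.2.1 t.2.2 (w j)))
  · intro t _ t' _ h
    simp only [Prod.mk.injEq] at h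
    obtain ⟨a1, a2, a3⟩ := zv_inj D.Qpos hd h.1 h.2
    exact Prod.ext a1 (Prod.ext a2 a3)
  · intro t ht
    obtain ⟨hGP, -, -⟩ := hprop t ht
    have z1 := D.zv_bd hGP.pt i
    have z2 := D.zv_bd hGP.pt j
    refine ⟨?_, z1.1, z1.2.1, z2.1, z2.2.1⟩
    show dt (zv Q t.1 t.2.1 t.2.2 (w i)) (zv Q t.1 t.2.1 t.2.2 (w j)) = 1
    rw [zv_dt hGP.pt.hd, hd]
  · intro t ht
    obtain ⟨hGP, hl1, hl2⟩ := hprop t ht
    obtain ⟨p1, p2⟩ := D.ip_bd hGP.pt i j
    have v1 := D.vl_spec hGP.pt i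
    have v2 := D.vl_spec hGP.pt j
    have dt1 : dt (zv Q t.1 t.2.1 t.2.2 (w i)) (zv Q t.1 t.2.1 t.2.2 (w j)) = 1 := by
      rw [zv_dt hGP.pt.hd, hd]
    have hq := qf_mul_det (b := b) (c := c) dt1
    unfold TN
    rw [mem_filter, mem_Icc]
    refine ⟨⟨?_, p2.trans (le_trans ?_ hX)⟩, ?_, ?_⟩
    · show 1 ≤ (ip b c (zv Q t.1 t.2.1 t.2.2 (w i)) (zv Q t.1 t.2.1 t.2.2 (w j))).toNat
      omega
    · apply Nat.mul_le_mul_left
      exact Nat.pow_le_pow_left hl2 2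
    · have h8 := ip_mod b c hGP.pt (w i) (w j)
      have h9 : (a : ℤ) ∣ ip b c (zv Q t.1 t.2.1 t.2.2 (w i)) (zv Q t.1 t.2.1 t.2.2 (w j)) := by
        have h10 : (a : ℤ) ∣ (Q : ℤ) := by exact_mod_cast haQ
        exact (dvd_sub_left hai).1 (h10.trans h8)
      show a ∣ (ip b c (zv Q t.1 t.2.1 t.2.2 (w i)) (zv Q t.1 t.2.1 t.2.2 (w j))).toNat
      rw [← Int.natCast_dvd_natCast, Int.toNat_of_nonneg p1.le]
      exact h9
    refine ⟨vl b c Q w s i t.1 t.2.1 t.2.2 * vl b c Q w s j t.1 t.2.1 t.2.2, ?_, hg t ht, ?_, ?_⟩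
    · rw [Int.toNat_of_nonneg p1.le, ← hq, v1.1, v2.1]
      push_cast
      ring
    · rw [len_mul v1.2.1.ne' v2.2.1.ne']
      have hsz : ∀ k : Fin 3, vl b c Q w s k t.1 t.2.1 t.2.2 ≤ t.1 ^ 3 := by
        intro k
        refine (D.vl_le hGP.pt k).trans ?_
        calc cc b c Q w * t.1 ^ 2 ≤ t.1 * t.1 ^ 2 := Nat.mul_le_mul_right _ (by omega)
          _ = t.1 ^ 3 := by ring
      have l1 := len_le (by omega) v1.2.1.ne' (hGP.big i) (hsz i)
      have l2 := len_le (by omega) v2.2.1.ne' (hGP.big j) (hsz j)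
      omega
    · intro p hp hpd
      have h5 : t.1 < p ^ K := by
        rcases (Nat.Prime.dvd_mul hp).1 hpd with h | h
        · exact hGP.big i p hp h
        · exact hGP.big j p hp h
      calc X ≤ L ^ 3 := hX2
        _ < t.1 ^ 3 := Nat.pow_lt_pow_left hl1 (by norm_num)
        _ ≤ (p ^ K) ^ 3 := Nat.pow_le_pow_left h5.le 3
        _ = p ^ (3 * K) := by rw [← pow_mul, mul_comm]
        _ ≤ p ^ (6 * K) := Nat.pow_le_pow_right hp.pos (by omega)
  · intro N hN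
    unfold TN at hN
    rw [mem_filter, mem_Icc] at hN
    obtain ⟨⟨hN1, -⟩, -, M, h1, -, h3, -⟩ := hN
    have hpos : 0 < fm b c 1 (N : ℤ) := by
      unfold fm
      have : (0 : ℤ) < (N : ℤ) := by exact_mod_cast hN1
      have h2 : 0 ≤ b * 1 * (N : ℤ) := by positivity
      have h4 : 0 < (N : ℤ) ^ 2 := by positivity
      linarith
    have hr : s i * s j ≠ 0 := Nat.mul_ne_zero (D.spos i).ne' (D.spos j).ne'
    have hM : M ≠ 0 := by
      rintro rfl
      rw [h1] at hpos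
      simp at hpos
    have e1 : (fm b c 1 (N : ℤ)).toNat = (s i * s j) * M := by
      rw [h1, ← Nat.cast_mul, Int.toNat_natCast]
    rw [e1]
    refine (card_div_le _ (Nat.mul_ne_zero hr hM)).trans ?_
    apply Nat.pow_le_pow_right (by norm_num)
    rw [len_mul hr hM]
    omega

lemma TN_mono (a : ℕ) (b c : ℤ) (r X : ℕ) {K K' : ℕ} (h : K ≤ K') (g : ℕ → ℤ) (e : ℤ) :
    (TN a b c r K X g e).card ≤ (TN a b c r K' X g e).card := by
  classical
  apply card_le_card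
  intro N hN
  unfold TN at hN ⊢
  rw [mem_filter] at hN ⊢
  obtain ⟨h1, ha, M, h2, h3, h4, h5⟩ := hN
  exact ⟨h1, ha, M, h2, h3, h4.trans h, fun p hp hd =>
    (h5 p hp hd).trans_le (Nat.pow_le_pow_right hp.pos h)⟩

/-- the main theorem -/
theorem engine : ∃ K : ℕ, ∀ (a : ℕ) (b c : ℤ) (Q : ℕ) (w : Fin 3 → ℕ × ℕ) (s : ℕ),
    Dat b c Q w ![a, a, s] → a ∣ Q → (a : ℤ) ∣ ip b c (iv (w 0)) (iv (w 1)) →
    ∃ X0 : ℕ, ∀ X : ℕ, X0 ≤ X → ∀ g : ℕ → ℤ, Sg g →
    ∃ i l : ℤ, (i = 1 ∨ i = -1) ∧ (l = 1 ∨ l = -1) ∧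
      (X : ℝ) / Real.log X ^ K ≤ ((TN a b c (a * a) K X g i).card : ℝ) ∧
      (X : ℝ) / Real.log X ^ K ≤ ((TN a b c (a * s) K X g l).card : ℝ) ∧
      (X : ℝ) / Real.log X ^ K ≤ ((TN a b c (a * s) K X g (i * l)).card : ℝ) := by
  classical
  obtain ⟨K0, hK0⟩ := GG_ge
  refine ⟨6 * K0 + 3, ?_⟩
  intro a b c Q w s D haQ ha01
  obtain ⟨L1, hL1⟩ := hK0 b c Q w _ D
  have ha0 : a ≠ 0 := by
    have := D.spos 0
    simp only [Matrix.cons_val_zero] at this
    omega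
  have hs0 : s ≠ 0 := by
    have := D.spos 2
    simp only [Matrix.cons_val] at this
    omega
  have ha02 : (a : ℤ) ∣ ip b c (iv (w 0)) (iv (w 2)) := by
    obtain ⟨m, hm, -⟩ := D.val 0
    have e : ip b c (iv (w 0)) (iv (w 2)) = qf b c (iv (w 0)) + ip b c (iv (w 0)) (iv (w 1)) := by
      rw [D.sum]; unfold ip qf iv
      simp only [Prod.fst_add, Prod.snd_add]
      push_cast; ring
    rw [e, hm]
    simp only [Matrix.cons_val_zero]
    exact dvd_add (dvd_mul_right _ _) ha01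
  have ha21 : (a : ℤ) ∣ ip b c (iv (w 2)) (iv (w 1)) := by
    obtain ⟨m, hm, -⟩ := D.val 1
    have e : ip b c (iv (w 2)) (iv (w 1)) = qf b c (iv (w 1)) + ip b c (iv (w 0)) (iv (w 1)) := by
      rw [D.sum]; unfold ip qf iv
      simp only [Prod.fst_add, Prod.snd_add]
      push_cast; ring
    rw [e, hm]
    simp only [Matrix.cons_val_one, Matrix.cons_val_zero]
    exact dvd_add (dvd_mul_right _ _) ha01
  have hcc : 0 < cc b c Q w := by
    have h1 := D.hb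
    have h2 := D.hc
    have h3 := D.Qpos
    have h4 := D.pos 2
    unfold cc
    have h5 : 0 < (1 + b + c).toNat := by omega
    positivity
  set C : ℕ := 3 * (b + c + 2).toNat * 2 ^ ((a * (a * s)).primeFactorsList.length + 6 * K0) with hC
  have hC0 : 0 < C := by
    have h1 := D.hb
    have h2 := D.hc
    have h5 : 0 < (b + c + 2).toNat := by omega
    rw [hC]
    positivity
  set L2 : ℕ := max L1 (max (16 * cc b c Q w) 2) with hL2
  refine ⟨max (4 * cc b c Q w * L2 ^ 2) (max 3 ⌈Real.exp (64 * cc b c Q w * C)⌉₊), ?_⟩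
  intro X hX g hg
  have x1 : 4 * cc b c Q w * L2 ^ 2 ≤ X := (le_max_left _ _).trans hX
  have x2 : 3 ≤ X := ((le_max_left _ _).trans (le_max_right _ _)).trans hX
  have x3 : ⌈Real.exp (64 * cc b c Q w * C)⌉₊ ≤ X :=
    ((le_max_right _ _).trans (le_max_right _ _)).trans hX
  have x3' : Real.exp (64 * cc b c Q w * C) ≤ X := (Nat.le_ceil _).trans (by exact_mod_cast x3)
  have x2' : (3 : ℝ) ≤ X := by exact_mod_cast x2
  have hlogX : 64 * (cc b c Q w : ℝ) * C ≤ Real.log X := by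
    rw [← Real.log_exp (64 * cc b c Q w * C)]
    exact Real.log_le_log (Real.exp_pos _) x3'
  set L : ℕ := Nat.sqrt (X / (4 * cc b c Q w)) with hL
  have l1 : L2 ≤ L := by
    rw [hL, Nat.le_sqrt, Nat.le_div_iff_mul_le (by positivity)]
    calc L2 * L2 * (4 * cc b c Q w) = 4 * cc b c Q w * L2 ^ 2 := by ring
      _ ≤ X := x1
  have l2 : L1 ≤ L := (le_max_left _ _).trans l1
  have l3 : 16 * cc b c Q w ≤ L := ((le_max_left _ _).trans (le_max_right _ _)).trans l1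
  have l4 : 2 ≤ L := ((le_max_right _ _).trans (le_max_right _ _)).trans l1
  have l5 : cc b c Q w * (2 * L) ^ 2 ≤ X := by
    have h1 : L * L ≤ X / (4 * cc b c Q w) := Nat.sqrt_le _
    rw [Nat.le_div_iff_mul_le (by positivity)] at h1
    calc cc b c Q w * (2 * L) ^ 2 = L * L * (4 * cc b c Q w) := by ring
      _ ≤ X := h1
  have l6 : X ≤ 16 * cc b c Q w * L ^ 2 := by
    have h1 : X / (4 * cc b c Q w) < (L + 1) * (L + 1) := Nat.lt_succ_sqrt _
    rw [Nat.div_lt_iff_lt_mul (by positivity)] at h1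
    have h2 : (L + 1) * (L + 1) ≤ 4 * L ^ 2 := by nlinarith
    calc X ≤ (L + 1) * (L + 1) * (4 * cc b c Q w) := h1.le
      _ ≤ 4 * L ^ 2 * (4 * cc b c Q w) := Nat.mul_le_mul_right _ h2
      _ = 16 * cc b c Q w * L ^ 2 := by ring
  have l7 : X ≤ L ^ 3 := by
    calc X ≤ 16 * cc b c Q w * L ^ 2 := l6
      _ ≤ L * L ^ 2 := Nat.mul_le_mul_right _ l3
      _ = L ^ 3 := by ring
  have hGG := hL1 L l2
  -- the classes
  set F : ℕ × ℕ × ℕ → ℤ × ℤ := fun t =>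
    (g (vl b c Q w ![a, a, s] 0 t.1 t.2.1 t.2.2 * vl b c Q w ![a, a, s] 1 t.1 t.2.1 t.2.2),
      g (vl b c Q w ![a, a, s] 0 t.1 t.2.1 t.2.2 * vl b c Q w ![a, a, s] 2 t.1 t.2.1 t.2.2)) with hF
  have hpt : ∀ t ∈ GG b c Q w ![a, a, s] K0 L, Pt Q t.1 t.2.1 t.2.2 := by
    intro t ht
    unfold GG at ht
    rw [mem_filter] at ht
    exact ht.2.pt
  set S4 : Finset (ℤ × ℤ) := ({1, -1} : Finset ℤ) ×ˢ ({1, -1} : Finset ℤ) with hS4
  have hS4c : S4.card = 4 := by rw [hS4]; decide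
  have hmaps : ∀ t ∈ GG b c Q w ![a, a, s] K0 L, F t ∈ S4 := by
    intro t ht
    have hp := hpt t ht
    have v0 := (D.vl_spec hp 0).2.1.ne'
    have v1 := (D.vl_spec hp 1).2.1.ne'
    have v2 := (D.vl_spec hp 2).2.1.ne'
    rw [hS4, hF, mem_product, mem_insert, mem_singleton, mem_insert, mem_singleton]
    exact ⟨hg.one_or _ (Nat.mul_ne_zero v0 v1), hg.one_or _ (Nat.mul_ne_zero v0 v2)⟩
  obtain ⟨y, hy, hyc⟩ := Finset.exists_le_card_fiber_of_nsmul_le_card_of_maps_to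
    (M := ℝ) (b := ((GG b c Q w ![a, a, s] K0 L).card : ℝ) / 4) hmaps
    (by rw [← card_pos, hS4c]; norm_num) (by rw [hS4c]; simp; linarith)
  set G := (GG b c Q w ![a, a, s] K0 L).filter (fun t => F t = y) with hG
  have hGsub : G ⊆ GG b c Q w ![a, a, s] K0 L := filter_subset _ _
  rw [hS4, mem_product, mem_insert, mem_singleton, mem_insert, mem_singleton] at hy
  have hw2 : (w 2).1 = (w 0).1 + (w 1).1 ∧ (w 2).2 = (w 0).2 + (w 1).2 := by
    rw [D.sum]; exact ⟨rfl, rfl⟩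
  have hdet : ((w 0).1 : ℤ) * (w 1).2 = (w 0).2 * (w 1).1 + 1 := by exact_mod_cast D.det
  -- the final comparison
  have fin : ∀ T : ℕ, G.card ≤ C * T → (X : ℝ) / Real.log X ^ (6 * K0 + 3) ≤ (T : ℝ) := by
    intro T hT
    have hT' : (G.card : ℝ) ≤ C * T := by exact_mod_cast hT
    have hLX : L ≤ X := by
      rw [hL]
      exact (Nat.sqrt_le_self _).trans (Nat.div_le_self _ _)
    have hL2' : (2 : ℝ) ≤ L := by exact_mod_cast l4
    have hLX' : (L : ℝ) ≤ X := by exact_mod_cast hLX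
    have p1 : 0 < Real.log L := Real.log_pos (by linarith)
    have p2 : Real.log L ≤ Real.log X := Real.log_le_log (by linarith) hLX'
    have p3 : 1 ≤ Real.log X := by
      have : (1 : ℝ) ≤ 64 * (cc b c Q w : ℝ) * C := by
        have a1 : (1 : ℝ) ≤ cc b c Q w := by exact_mod_cast hcc
        have a2 : (1 : ℝ) ≤ C := by exact_mod_cast hC0
        nlinarith
      linarith
    have p4 : (X : ℝ) ≤ 16 * cc b c Q w * L ^ 2 := by exact_mod_cast l6
    have p5 : (L : ℝ) ^ 2 ≤ 4 * C * T * Real.log L ^ (K0 + 2) := by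
      rw [div_le_iff₀ (by positivity)] at hGG
      refine hGG.trans ?_
      apply mul_le_mul_of_nonneg_right _ (by positivity)
      linarith
    rw [div_le_iff₀ (by positivity)]
    calc (X : ℝ) ≤ 16 * cc b c Q w * L ^ 2 := p4
      _ ≤ 16 * cc b c Q w * (4 * C * T * Real.log L ^ (K0 + 2)) := by gcongr
      _ ≤ 16 * cc b c Q w * (4 * C * T * Real.log X ^ (K0 + 2)) := by gcongr
      _ = (64 * (cc b c Q w : ℝ) * C) * (T * Real.log X ^ (K0 + 2)) := by ring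
      _ ≤ Real.log X * (T * Real.log X ^ (K0 + 2)) := by gcongr
      _ = T * Real.log X ^ (K0 + 3) := by ring
      _ ≤ T * Real.log X ^ (6 * K0 + 3) := by
          apply mul_le_mul_of_nonneg_left _ (by positivity)
          exact pow_le_pow_right₀ p3 (by omega)
  have fin2 : ∀ (r : ℕ) (e : ℤ), r.primeFactorsList.length ≤ (a * (a * s)).primeFactorsList.length →
      G.card ≤ 3 * (b + c + 2).toNat * 2 ^ (r.primeFactorsList.length + 6 * K0) *
        (TN a b c r (6 * K0) X g e).card →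
      (X : ℝ) / Real.log X ^ (6 * K0 + 3) ≤ ((TN a b c r (6 * K0 + 3) X g e).card : ℝ) := by
    intro r e hr h
    have len1 : 3 * (b + c + 2).toNat * 2 ^ (r.primeFactorsList.length + 6 * K0) ≤ C := by
      rw [hC]
      apply Nat.mul_le_mul_left
      apply Nat.pow_le_pow_right (by norm_num)
      omega
    refine (fin _ (h.trans (Nat.mul_le_mul_right _ len1))).trans ?_
    exact_mod_cast TN_mono a b c r X (by omega) g e
  have n1 : (a * a).primeFactorsList.length ≤ (a * (a * s)).primeFactorsList.length := by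
    rw [← mul_assoc, len_mul (Nat.mul_ne_zero ha0 ha0) hs0]; omega
  have n2 : (a * s).primeFactorsList.length ≤ (a * (a * s)).primeFactorsList.length := by
    rw [len_mul ha0 (Nat.mul_ne_zero ha0 hs0)]; omega
  refine ⟨y.1, y.2, hy.1, hy.2, fin2 (a * a) y.1 n1 ?_, fin2 (a * s) y.2 n2 ?_,
    fin2 (a * s) (y.1 * y.2) n2 ?_⟩
  · have h := family (K := K0) D 0 1 haQ ha01 (by linarith) l5 (by omega) l4 l7 g y.1 G hGsub (by
      intro t ht
      rw [hG, mem_filter] at ht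
      rw [← ht.2])
    exact h
  · have h := family (K := K0) D 0 2 haQ ha02 (by rw [hw2.1, hw2.2]; push_cast; linarith) l5
      (by omega) l4 l7 g y.2 G hGsub (by
      intro t ht
      rw [hG, mem_filter] at ht
      rw [← ht.2])
    exact h
  · have h := family (K := K0) D 2 1 haQ ha21 (by rw [hw2.1, hw2.2]; push_cast; linarith) l5
      (by omega) l4 l7 g (y.1 * y.2) G hGsub (by
      intro t ht
      rw [hG, mem_filter] at ht
      rw [← ht.2, hF]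
      have hp := hpt t ht.1
      have v0 := (D.vl_spec hp 0).2.1.ne'
      have v1 := (D.vl_spec hp 1).2.1.ne'
      have v2 := (D.vl_spec hp 2).2.1.ne'
      show _ = g _ * g _
      rw [hg.mul _ _ v0 v1, hg.mul _ _ v0 v2, hg.mul _ _ v2 v1]
      rcases hg.one_or _ v0 with h0 | h0 <;> rw [h0] <;> ring)
    have e : (![a, a, s] : Fin 3 → ℕ) 2 * (![a, a, s] : Fin 3 → ℕ) 1 = a * s := by
      simp only [Matrix.cons_val_one, Matrix.cons_val_zero, Matrix.cons_val]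
      ring
    rw [e] at h
    exact h

end Pool.Agent.Q91.RQ
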