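import Mathlib
import Pool.Agent.Q91.RQ.Main
import Pool.Agent.Q91.RQ.Loc

/-!
Rough values of `a m ^ 2 + b m + c`.
-/

set_option autoImplicit false
set_option maxHeartbeats 400000

namespace Pool.Agent.Q91.RQ

open Finset Pool.Agent.H505R2 Pool.Agent.Q91.RP

/-- shift and rescaling of the variable -/
lemma TN_shift {a : ℕ} {b c b' c' : ℤ} {k : ℕ} (ha : 1 ≤ a)
    (hf : ∀ m : ℤ, a * (m + k) ^ 2 + b * (m + k) + c = a * m ^ 2 + b' * m + c')
    {r K X : ℕ} (hX : 2 * k ≤ X) (g : ℕ → ℤ) (e : ℤ) :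
    (TN a b' (a * c') (a * r) K (a * (X - k)) g e).card ≤
      (TF (fun m => a * (m : ℤ) ^ 2 + b * m + c) r (K + 1) X g e).card := by
  classical
  apply card_le_card_of_injOn (fun N => N / a + k)
  · intro N hN
    unfold TN at hN
    unfold TF
    rw [mem_coe, mem_filter, mem_Icc] at hN
    rw [mem_coe, mem_filter, mem_Icc]
    obtain ⟨⟨h1, h2⟩, ⟨m, rfl⟩, M, h3, h4, h5, h6⟩ := hN
    have hm : a * m / a = m := Nat.mul_div_cancel_left _ (by omega)
    show (1 ≤ a * m / a + k ∧ a * m / a + k ≤ X) ∧ _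
    rw [hm]
    have hm1 : 1 ≤ m := by
      rcases Nat.eq_zero_or_pos m with h | h
      · rw [h] at h1; simp at h1
      · exact h
    have hm2 : m ≤ X - k := Nat.le_of_mul_le_mul_left h2 (by omega)
    refine ⟨⟨by omega, by omega⟩, M, ?_, h4, by omega, ?_⟩
    · show (a : ℤ) * ((a * m / a + k : ℕ) : ℤ) ^ 2 + b * ((a * m / a + k : ℕ) : ℤ) + c = (r : ℤ) * M
      rw [hm]
      have h7 := hf m
      push_cast
      rw [h7]
      have ha' : (a : ℤ) ≠ 0 := by exact_mod_cast (by omega : a ≠ 0)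
      apply mul_left_cancel₀ ha'
      unfold fm at h3
      push_cast at h3
      linear_combination h3
    · intro p hp hd
      have h7 := h6 p hp hd
      calc X ≤ 2 * (X - k) := by omega
        _ ≤ 2 * (a * (X - k)) := Nat.mul_le_mul_left _ (Nat.le_mul_of_pos_left _ (by omega))
        _ < 2 * p ^ K := by omega
        _ ≤ p * p ^ K := Nat.mul_le_mul_right _ hp.two_le
        _ = p ^ (K + 1) := by ring
  · intro N hN N' hN' h
    unfold TN at hN hN'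
    rw [mem_coe, mem_filter] at hN hN'
    obtain ⟨-, ⟨m, rfl⟩, -⟩ := hN
    obtain ⟨-, ⟨m', rfl⟩, -⟩ := hN'
    have hm : a * m / a = m := Nat.mul_div_cancel_left _ (by omega)
    have hm' : a * m' / a = m' := Nat.mul_div_cancel_left _ (by omega)
    have h8 : a * m / a + k = a * m' / a + k := h
    rw [hm, hm'] at h8
    have : m = m' := by omega
    rw [this]

/-- the main theorem for quadratic polynomials -/
theorem main : ∃ K : ℕ, ∀ (a : ℕ) (b c : ℤ), 1 ≤ a → IsCoprime (a : ℤ) b →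
    ¬ (¬ 2 ∣ a ∧ Odd b ∧ Even c) → ∃ i j : ℕ,
    ((2 ∣ a ∨ (Odd b ∧ Odd c)) → i = 0) ∧
    ((3 ∣ a ∨ ¬ (3 : ℤ) ∣ b ^ 2 - 4 * a * c - 1) → j = 0) ∧
    ∃ X0 : ℕ, ∀ X : ℕ, X0 ≤ X → ∀ g : ℕ → ℤ, Sg g →
    ∃ e f : ℤ, (e = 1 ∨ e = -1) ∧ (f = 1 ∨ f = -1) ∧
      (X : ℝ) / Real.log X ^ K ≤ ((TF (fun m => a * (m : ℤ) ^ 2 + b * m + c) a K X g e).card : ℝ) ∧
      (X : ℝ) / Real.log X ^ K ≤
        ((TF (fun m => a * (m : ℤ) ^ 2 + b * m + c) (2 ^ i * 3 ^ j) K X g f).card : ℝ) ∧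
      (X : ℝ) / Real.log X ^ K ≤
        ((TF (fun m => a * (m : ℤ) ^ 2 + b * m + c) (2 ^ i * 3 ^ j) K X g (e * f)).card : ℝ) := by
  obtain ⟨K, hK⟩ := engine
  refine ⟨K + 1, ?_⟩
  intro a b c ha hab hpar
  have ha' : (1 : ℤ) ≤ a := by exact_mod_cast ha
  -- the shift
  set k : ℕ := 2 * (b.natAbs + c.natAbs + 1) with hk
  set b' : ℤ := 2 * a * k + b with hb'
  set c' : ℤ := a * (k : ℤ) ^ 2 + b * k + c with hc'
  have hkz : (k : ℤ) = 2 * (|b| + |c| + 1) := by rw [hk]; push_cast; rfl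
  have habs := neg_abs_le b
  have habs' := neg_abs_le c
  have hb0 := abs_nonneg b
  have hc0 := abs_nonneg c
  have hk0 : (0 : ℤ) ≤ k := Int.natCast_nonneg k
  have hb1 : 0 ≤ b' := by
    have : (k : ℤ) ≤ a * k := by nlinarith
    rw [hb']
    linarith
  have hc1 : 1 ≤ c' := by
    have h1 : (k : ℤ) ^ 2 ≤ a * (k : ℤ) ^ 2 := by nlinarith [sq_nonneg (k : ℤ)]
    have h2 : -|b| * k ≤ b * k := by nlinarith
    have h3 : c' ≥ k * (k - |b|) - |c| := by rw [hc']; nlinarith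
    have h4 : (k : ℤ) - |b| ≥ 1 := by rw [hkz]; linarith
    have h5 : (k : ℤ) * (k - |b|) ≥ k := by nlinarith
    linarith
  have hcop : IsCoprime (a : ℤ) b' := by
    rw [hb']
    have h := (IsCoprime.mul_add_left_right hab (2 * k))
    have e : 2 * (a : ℤ) * k + b = a * (2 * k) + b := by ring
    rw [e]
    exact h
  have hbodd : Odd b' ↔ Odd b := by
    rw [hb']
    have : Even (2 * (a : ℤ) * k) := by rw [mul_assoc]; exact even_two_mul _
    exact Int.odd_add.trans ⟨fun h => by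
      by_contra hcon
      rw [Int.not_odd_iff_even] at hcon
      exact (Int.not_even_iff_odd.2 (h.2 hcon)) this, fun h => ⟨fun h' =>
        absurd this (Int.not_even_iff_odd.2 h'), fun h' => absurd h (Int.not_odd_iff_even.2 h')⟩⟩
  have hkev : Even (k : ℤ) := by rw [hkz]; exact even_two_mul _
  have hceven : Even c' ↔ Even c := by
    rw [hc']
    have h1 : Even ((a : ℤ) * (k : ℤ) ^ 2 + b * k) :=
      ((hkev.pow_of_ne_zero (by norm_num)).mul_left _).add (hkev.mul_left _)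
    rw [Int.even_add]
    tauto
  have hpar' : ¬ (¬ 2 ∣ a ∧ Odd b' ∧ Even c') := by
    rw [hbodd, hceven]; exact hpar
  obtain ⟨i, j, w, D, hip, hi, hj⟩ := locG ha hb1 hc1 hcop hpar'
  refine ⟨i, j, ?_, ?_, ?_⟩
  · intro h
    apply hi
    rcases h with h | ⟨h1, h2⟩
    · exact Or.inl h
    · refine Or.inr ⟨hbodd.2 h1, ?_⟩
      rw [← Int.not_even_iff_odd, hceven, Int.not_even_iff_odd]
      exact h2
  · intro h
    apply hj
    have e : b' ^ 2 - 4 * a * c' = b ^ 2 - 4 * a * c := by rw [hb', hc']; ring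
    rw [e]
    exact h
  have haQ : a ∣ 2310 * a ^ 2 * (2 ^ i * 3 ^ j) := ⟨2310 * a * (2 ^ i * 3 ^ j), by ring⟩
  obtain ⟨X0, hX0⟩ := hK a b' (a * c') _ w _ D haQ hip
  refine ⟨X0 + 2 * k + a + 3 + ⌈Real.exp (2 ^ (K + 1))⌉₊, ?_⟩
  intro X hX g hg
  have hexp : Real.exp (2 ^ (K + 1)) ≤ X := (Nat.le_ceil _).trans (by
    exact_mod_cast (by omega : ⌈Real.exp (2 ^ (K + 1))⌉₊ ≤ X))
  have hlog : (2 : ℝ) ^ (K + 1) ≤ Real.log X := by
    rw [← Real.log_exp (2 ^ (K + 1))]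
    exact Real.log_le_log (Real.exp_pos _) hexp
  have hX' : X - k ≤ a * (X - k) := Nat.le_mul_of_pos_left _ (by omega)
  obtain ⟨e, f, he, hf, h1, h2, h3⟩ := hX0 (a * (X - k)) (by omega) g hg
  have hcmp : (X : ℝ) / Real.log X ^ (K + 1) ≤
      ((a * (X - k) : ℕ) : ℝ) / Real.log ((a * (X - k) : ℕ) : ℝ) ^ K := by
    have b1 : (X : ℝ) ≤ 2 * ((a * (X - k) : ℕ) : ℝ) := by
      have : X ≤ 2 * (a * (X - k)) := by omega
      exact_mod_cast this
    have b2 : (3 : ℝ) ≤ ((a * (X - k) : ℕ) : ℝ) := by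
      have : 3 ≤ a * (X - k) := by omega
      exact_mod_cast this
    have b3 : ((a * (X - k) : ℕ) : ℝ) ≤ (X : ℝ) * X := by
      have : a * (X - k) ≤ X * X := Nat.mul_le_mul (by omega) (Nat.sub_le _ _)
      exact_mod_cast this
    have hX3 : (3 : ℝ) ≤ X := by exact_mod_cast (by omega : 3 ≤ X)
    have b4 : 0 < Real.log ((a * (X - k) : ℕ) : ℝ) := Real.log_pos (by linarith)
    have b5 : Real.log ((a * (X - k) : ℕ) : ℝ) ≤ 2 * Real.log X := by
      refine (Real.log_le_log (by linarith) b3).trans (le_of_eq ?_)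
      rw [Real.log_mul (by linarith) (by linarith)]; ring
    have b6 : 0 < Real.log (X : ℝ) := Real.log_pos (by linarith)
    rw [div_le_div_iff₀ (by positivity) (by positivity)]
    calc (X : ℝ) * Real.log ((a * (X - k) : ℕ) : ℝ) ^ K
        ≤ (2 * ((a * (X - k) : ℕ) : ℝ)) * (2 * Real.log X) ^ K := by gcongr
      _ = (2 : ℝ) ^ (K + 1) * (((a * (X - k) : ℕ) : ℝ) * Real.log X ^ K) := by ring
      _ ≤ Real.log X * (((a * (X - k) : ℕ) : ℝ) * Real.log X ^ K) := by gcongr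
      _ = ((a * (X - k) : ℕ) : ℝ) * Real.log X ^ (K + 1) := by ring
  have hff : ∀ m : ℤ, (a : ℤ) * (m + k) ^ 2 + b * (m + k) + c = a * m ^ 2 + b' * m + c' := by
    intro m; rw [hb', hc']; ring
  have sh : ∀ (r : ℕ) (e : ℤ), ((a * (X - k) : ℕ) : ℝ) / Real.log ((a * (X - k) : ℕ) : ℝ) ^ K ≤
      ((TN a b' (a * c') (a * r) K (a * (X - k)) g e).card : ℝ) →
      (X : ℝ) / Real.log X ^ (K + 1) ≤
        ((TF (fun m => a * (m : ℤ) ^ 2 + b * m + c) r (K + 1) X g e).card : ℝ) := by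
    intro r e h
    refine hcmp.trans (h.trans ?_)
    exact_mod_cast TN_shift ha hff (by omega) g e
  exact ⟨e, f, he, hf, sh a e h1, sh _ f h2, sh _ (e * f) h3⟩

end Pool.Agent.Q91.RQ
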